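import Pool.Agent.H654R5.PT.Stm

/-! FEW: the adversary spoils few strings. -/

namespace Pool.Agent.H654R5.PT.FEW

open Pool.Agent.NPC Pool.Agent.H544R2

theorem eA_some {n : ℕ} {w : List Bool} (h : eA n = some w) :
    ∃ p k y, y ∈ Vn k p ∧ p.length + 66 < y.length ∧ y.take 2 = [false, false] ∧
      y.drop 2 = w := by
  unfold eA at h
  rw [Option.bind_eq_some_iff] at h
  obtain ⟨⟨p, k⟩, _, h⟩ := h
  rw [Option.bind_eq_some_iff] at h
  obtain ⟨y, hy, h⟩ := h
  split_ifs at h with hc
  exact ⟨p, k, y, hy, hc.1, hc.2, Option.some.inj h⟩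

theorem few : Few eA := by
  classical
  intro N F hF
  have h1 : ∀ w ∈ F, ∃ p k y, y ∈ Vn k p ∧ p.length + 66 < y.length ∧
      y.take 2 = [false, false] ∧ y.drop 2 = w := by
    intro w hw
    obtain ⟨n, hn⟩ := (hF w hw).2
    exact eA_some hn
  choose! p k y hy1 hy2 hy3 hy4 using h1
  have hinj : Set.InjOn p (F : Set (List Bool)) := by
    intro w hw w' hw' hpp
    have h1 := hy1 w (Finset.mem_coe.1 hw)
    have h2 := hy1 w' (Finset.mem_coe.1 hw')
    rw [← hpp] at h2
    have h3 := Vn_unique h1 h2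
    have h4 := hy4 w (Finset.mem_coe.1 hw)
    have h5 := hy4 w' (Finset.mem_coe.1 hw')
    rw [h3, h5] at h4
    exact h4.symm
  have hlen : ∀ w ∈ F, (p w).length + 64 < N := by
    intro w hw
    have h1 := hy2 w hw
    have h2 := congrArg List.length (hy4 w hw)
    rw [List.length_drop, (hF w hw).1] at h2
    omega
  rcases F.eq_empty_or_nonempty with h0 | ⟨w0, hw0⟩
  · rw [h0]
    simp
  · have hN : 64 < N := by
      have := hlen w0 hw0
      omega
    have h2 : F.card ≤ 2 ^ (N - 64) - 1 := by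
      rw [← Finset.card_image_of_injOn hinj]
      refine card_short _ _ ?_
      intro q hq
      obtain ⟨w, hw, rfl⟩ := Finset.mem_image.1 hq
      have := hlen w hw
      omega
    have h3 : 2 ^ N = 2 ^ (N - 64) * 2 ^ 64 := by
      rw [← pow_add]
      congr 1
      omega
    rw [h3]
    have h4 : 1 ≤ 2 ^ (N - 64) := Nat.one_le_two_pow
    have h5 : 1024 * F.card ≤ 2 ^ 64 * F.card := by
      apply Nat.mul_le_mul_right
      norm_num
    calc 1024 * F.card ≤ 2 ^ 64 * F.card := h5
      _ ≤ 2 ^ 64 * 2 ^ (N - 64) := Nat.mul_le_mul_left _ (by omega)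
      _ = _ := mul_comm _ _

theorem FEW_proof : S_FEW := by
  refine ⟨few, ?_, ?_⟩
  · rintro z ⟨k, y, hy⟩ m
    refine ⟨Encodable.encode (z, max k m), ?_, ?_⟩
    · rw [Encodable.encode_prod_val]
      exact (le_max_right k m).trans (Nat.right_le_pair _ _)
    · have h1 := Vn_mono (le_max_left k m) hy
      unfold eT
      rw [Encodable.encodek, Option.bind_some]
      simp only
      rw [if_pos]
      rw [Option.mem_def] at h1
      rw [h1]
      rfl
  · intro z n h
    unfold eT at h
    rw [Option.bind_eq_some_iff] at h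
    obtain ⟨⟨p, k⟩, _, h⟩ := h
    split_ifs at h with hc
    obtain ⟨y, hy⟩ := Option.isSome_iff_exists.1 hc
    have hz := Option.some.inj h
    simp only at hz hy
    subst hz
    exact ⟨k, y, hy⟩

end Pool.Agent.H654R5.PT.FEW
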